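import Mathlib
import Pool.Agent.H62.Sulanke.Defs
import Pool.Agent.H62.Sulanke.Bij
import Pool.Agent.H62.Sulanke.Xc

set_option autoImplicit false

namespace Pool.Agent.Results.MP_6dddfa_co.SulankeStatistic

open Finset PowerSeries Pool.Agent.H62.Sulanke

lemma wt_M1 {n : ℕ} (f : Fin 3 × Fin n ≃ Fin (3 * n)) :
    wt (M1 (X : ℚ⟦X⟧)) (word f) = X ^ (b f 1 2 + b f 2 2 + b f 2 3) := by
  unfold wt b
  rw [card_filter, card_filter, card_filter, ← sum_add_distrib, ← sum_add_distrib,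
    ← prod_pow_eq_pow_sum]
  apply prod_congr rfl
  intro i _
  by_cases h : (i : ℕ) + 1 < 3 * n
  · rw [dif_pos h]
    simp only [h, exists_true_left, row, word]
    generalize (f.symm i).1 = x
    generalize (f.symm ⟨(i : ℕ) + 1, h⟩).1 = y
    fin_cases x <;> fin_cases y <;> simp [M1]
  · rw [dif_neg h]
    simp [h]

lemma wt_M2 {n : ℕ} (f : Fin 3 × Fin n ≃ Fin (3 * n)) :
    wt (M2 (X : ℚ⟦X⟧)) (word f) = X ^ (asc f) := by
  unfold wt asc
  rw [card_filter, ← prod_pow_eq_pow_sum]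
  apply prod_congr rfl
  intro i _
  by_cases h : (i : ℕ) + 1 < 3 * n
  · rw [dif_pos h]
    simp only [h, exists_true_left, row, word]
    generalize (f.symm i).1 = x
    generalize (f.symm ⟨(i : ℕ) + 1, h⟩).1 = y
    fin_cases x <;> fin_cases y <;> simp [M2]
  · rw [dif_neg h]
    simp [h]

lemma nxt_eq_one (M : Fin 3 → Fin 3 → ℚ⟦X⟧) (s : Fin 3) (hM : ∀ r, M r s = 1) {N : ℕ}
    (w : Fin N → Fin 3) : nxt M w s = 1 := by
  unfold nxt
  split_ifs
  · exact hM _
  · rfl

open Classical in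
lemma sum_F (M : Fin 3 → Fin 3 → ℚ⟦X⟧) (s : Fin 3) (hM : ∀ r, M r s = 1) (n : ℕ) :
    ∑ f ∈ univ.filter (fun f : Fin 3 × Fin n ≃ Fin (3 * n) => IsSYT f), wt M (word f) =
      F M s n n n := by
  rw [sum_SYT (fun w => wt M w)]
  unfold F
  rw [show n + n + n = 3 * n by ring]
  unfold Z
  apply sum_congr rfl
  intro w _
  rw [nxt_eq_one M s hM, mul_one]

open Classical in
lemma key_sum (n : ℕ) (hn : 1 ≤ n) :
    ∑ f ∈ univ.filter (fun f : Fin 3 × Fin n ≃ Fin (3 * n) => IsSYT f),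
      (X : ℚ⟦X⟧) ^ (b f 1 2 + b f 2 2 + b f 2 3) =
    ∑ f ∈ univ.filter (fun f : Fin 3 × Fin n ≃ Fin (3 * n) => IsSYT f),
      (X : ℚ⟦X⟧) ^ (asc f + 2) := by
  have h1 := sum_F (M1 (X : ℚ⟦X⟧)) 0 (by intro r; fin_cases r <;> simp [M1]) n
  have h2 := sum_F (M2 (X : ℚ⟦X⟧)) 2 (by intro r; fin_cases r <;> simp [M2]) n
  simp only [wt_M1] at h1
  simp only [wt_M2] at h2
  rw [h1, main_identity n hn, ← h2, mul_sum, mul_sum]
  apply sum_congr rfl
  intro f _
  ring

open Classical in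
lemma key_count (n : ℕ) (hn : 1 ≤ n) (k : ℕ) :
    (univ.filter (fun f : Fin 3 × Fin n ≃ Fin (3 * n) =>
      IsSYT f ∧ b f 1 2 + b f 2 2 + b f 2 3 = k)).card =
    (univ.filter (fun f : Fin 3 × Fin n ≃ Fin (3 * n) => IsSYT f ∧ asc f + 2 = k)).card := by
  have h := congrArg (PowerSeries.coeff k) (key_sum n hn)
  simp only [map_sum, PowerSeries.coeff_X_pow] at h
  rw [sum_boole, sum_boole] at h
  have h' : ((univ.filter (fun f : Fin 3 × Fin n ≃ Fin (3 * n) => IsSYT f)).filter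
      (fun f => k = b f 1 2 + b f 2 2 + b f 2 3)).card =
      ((univ.filter (fun f : Fin 3 × Fin n ≃ Fin (3 * n) => IsSYT f)).filter
      (fun f => k = asc f + 2)).card := by exact_mod_cast h
  rw [filter_filter, filter_filter] at h'
  simpa only [eq_comm] using h'

/-- **Sulanke's conjecture.** For every `n ≥ 1`, the statistic `st₁ = b₁₂ + b₂₂ + b₂₃ - 2` on
standard Young tableaux of rectangular shape with three rows and `n` columns has the same
distribution as the number of ascents, that is, it has a `3`-Narayana distribution. -/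
theorem result (n : ℕ) (hn : 1 ≤ n) (h : ℤ) :
    {f : Fin 3 × Fin n ≃ Fin (3 * n) | IsSYT f ∧ st1 f = h}.ncard =
      {f : Fin 3 × Fin n ≃ Fin (3 * n) | IsSYT f ∧ (asc f : ℤ) = h}.ncard := by
  classical
  rcases lt_or_ge (h + 2) 0 with hneg | hpos
  · have h1 : {f : Fin 3 × Fin n ≃ Fin (3 * n) | IsSYT f ∧ st1 f = h} = ∅ := by
      ext f
      simp only [Set.mem_ofPred_eq, Set.mem_empty_iff_false, iff_false]
      rintro ⟨_, hf⟩
      unfold st1 at hf
      omega
    have h2 : {f : Fin 3 × Fin n ≃ Fin (3 * n) | IsSYT f ∧ (asc f : ℤ) = h} = ∅ := by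
      ext f
      simp only [Set.mem_ofPred_eq, Set.mem_empty_iff_false, iff_false]
      rintro ⟨_, hf⟩
      omega
    rw [h1, h2]
  · obtain ⟨k, hk⟩ : ∃ k : ℕ, (k : ℤ) = h + 2 := ⟨(h + 2).toNat, by omega⟩
    have h1 : {f : Fin 3 × Fin n ≃ Fin (3 * n) | IsSYT f ∧ st1 f = h} =
        ((univ.filter (fun f : Fin 3 × Fin n ≃ Fin (3 * n) =>
          IsSYT f ∧ b f 1 2 + b f 2 2 + b f 2 3 = k) : Finset _) : Set _) := by
      ext f
      simp only [Set.mem_ofPred_eq, coe_filter, mem_univ, true_and]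
      unfold st1
      constructor
      · rintro ⟨h1, h2⟩
        exact ⟨h1, by omega⟩
      · rintro ⟨h1, h2⟩
        exact ⟨h1, by omega⟩
    have h2 : {f : Fin 3 × Fin n ≃ Fin (3 * n) | IsSYT f ∧ (asc f : ℤ) = h} =
        ((univ.filter (fun f : Fin 3 × Fin n ≃ Fin (3 * n) =>
          IsSYT f ∧ asc f + 2 = k) : Finset _) : Set _) := by
      ext f
      simp only [Set.mem_ofPred_eq, coe_filter, mem_univ, true_and]
      constructor
      · rintro ⟨h1, h2⟩
        exact ⟨h1, by omega⟩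
      · rintro ⟨h1, h2⟩
        exact ⟨h1, by omega⟩
    rw [h1, h2, Set.ncard_coe_finset, Set.ncard_coe_finset]
    exact key_count n hn k

end Pool.Agent.Results.MP_6dddfa_co.SulankeStatistic
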